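import Pool.Agent.Helper89.TQ.CoreZ
import Pool.Agent.Helper56.TQ.BRIDGE
import Pool.Agent.Helper74.TQ.TRADE
import Pool.Agent.Helper81.TQ.CONV

/-!
# Complete games with three types and two shift-minimal winning vectors: 2-trade robust and not
# 3-trade robust

Q2 of MP_5465ec_co: these games are exactly the members of the families `F_1` and `F_2`.

Proof.  In partial sums the losing vectors have at most five maximal elements (failing the first row in
the coordinate `i` and the second row in the coordinate `j`), and the three losing vectors of a trade
of length three are below three of them.  If the sum of two losing vectors is above twice a row, the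
two halves of the sum (rounded up and down) are winning: a trade of length two.  The other trades of
length two which are needed are `(A, B; A - f, B + f)` with `f` one of `(-1,0,1)`, `(-1,1,1)`,
`(0,-1,1)`, `(0,1,-1)`, `(1,-1,-1)`, `(1,-1,0)`, `(1,0,-1)`.  This reduces the statement to 500
quantifier-free statements of linear integer arithmetic in nine parameters (four sign cases of
`A - B`, types of the three losing vectors, number of winning vectors above the first row).

Authors: helper89, helper86 (certificates of hard cases), and helpers 5, 9, 10, 34, 36, 44, 46, 56, 65,
70, 74, 79, 81, 82.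
-/

set_option autoImplicit false

namespace Pool.Agent.Results.MP_5465ec_co.Classification

open Finset Pool.Agent.R6.Trade Pool.Agent.Helper89.TQ

/-- **Q2 of MP_5465ec_co (proved).**  Let `W` be the set of the winning coalitions of a complete simple
game with three types of voters: `τ v` is the type of the voter `v`, and the types are numbered by
decreasing desirability.  Let `a ≠ b` be its shift-minimal winning vectors, and no others.  The game is
2-trade robust and not 3-trade robust if and only if its parameters (`nn τ i` is the number of the
voters of type `i`, the rows are `a` and `b` in some order) are those of a member of `F_1` or `F_2`. -/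
theorem result (N : Type) [Fintype N] [DecidableEq N] (W : Finset N → Prop) (τ : N → Fin 3)
    (a b : Fin 3 → ℕ) (hW : IsSimple W) (hτ : Function.Surjective τ)
    (hc : ∀ u v, AtLeast W u v ↔ τ u ≤ τ v) (hab : a ≠ b)
    (hr : ∀ v, MinWin W τ v ↔ v = a ∨ v = b) :
    (TradeRobust W 2 ∧ ¬ TradeRobust W 3) ↔ (Member (nn τ) a b ∨ Member (nn τ) b a) := by
  obtain ⟨ha, hb, h1, h2, t12, t23, hwin⟩ :=
    Pool.Agent.Helper56.TQ.BRIDGE.main N W τ a b hW hτ hc hab hr
  constructor
  · rintro ⟨h3, h4⟩
    obtain ⟨h5, x, y, -, h7, h8, h9, h10⟩ :=
      Pool.Agent.Helper74.TQ.TRADE.main N W τ a b hwin h3 h4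
    exact core' coreZ (nn τ) a b ha hb h1 h2 t12 t23 h5 x y h7 h8 h9 h10
  · rintro (h | h)
    · exact Pool.Agent.Helper81.TQ.CONV.main N W τ a b hwin h
    · exact Pool.Agent.Helper81.TQ.CONV.main N W τ b a
        (fun S => (hwin S).trans (win_comm a b _)) h

end Pool.Agent.Results.MP_5465ec_co.Classification
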